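import Pool.Agent.Helper80.Fz.Defs

open Filter Topology Metric TopologicalSpace

namespace Pool.Agent.Helper80.Fz

namespace FuzzySet

theorem le_map_iff {X Y : Type*} [TopologicalSpace X] [TopologicalSpace Y] [T2Space Y]
    (f : X → Y) (hf : Continuous f) (u : FuzzySet X) (y : Y) {a : ℝ} (ha : 0 < a) :
    a ≤ (map f hf u).toFun y ↔ ∃ x, f x = y ∧ a ≤ u.toFun x := by
  constructor
  · intro h
    have h' : a ≤ sSup (u.toFun '' (f ⁻¹' {y})) := h
    obtain ⟨x, hx, hx'⟩ := exists_max_fiber f hf u y (lt_of_lt_of_le ha h')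
    exact ⟨x, hx, by rw [hx']; exact h'⟩
  · rintro ⟨x, rfl, hx⟩
    refine hx.trans ?_
    show u.toFun x ≤ sSup (u.toFun '' (f ⁻¹' {f x}))
    apply le_csSup
    · refine ⟨1, ?_⟩
      rintro _ ⟨x, _, rfl⟩
      exact u.le_one x
    · exact ⟨x, rfl, rfl⟩

theorem ext_level {X : Type*} [TopologicalSpace X] {u v : FuzzySet X}
    (h : ∀ a, 0 < a → ∀ x, a ≤ u.toFun x ↔ a ≤ v.toFun x) : u = v := by
  apply ext'
  intro x
  apply le_antisymm
  · rcases (u.nonneg x).lt_or_eq with h0 | h0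
    · exact (h _ h0 x).1 le_rfl
    · rw [← h0]; exact v.nonneg x
  · rcases (v.nonneg x).lt_or_eq with h0 | h0
    · exact (h _ h0 x).2 le_rfl
    · rw [← h0]; exact u.nonneg x

theorem map_map {X Y Z : Type*} [TopologicalSpace X] [TopologicalSpace Y] [T2Space Y]
    [TopologicalSpace Z] [T2Space Z]
    (f : X → Y) (hf : Continuous f) (g : Y → Z) (hg : Continuous g) (u : FuzzySet X) :
    map g hg (map f hf u) = map (g ∘ f) (hg.comp hf) u := by
  apply ext_level
  intro a ha z
  rw [le_map_iff _ _ _ _ ha, le_map_iff _ _ _ _ ha]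
  constructor
  · rintro ⟨y, rfl, hy⟩
    rw [le_map_iff _ _ _ _ ha] at hy
    obtain ⟨x, rfl, hx⟩ := hy
    exact ⟨x, rfl, hx⟩
  · rintro ⟨x, rfl, hx⟩
    exact ⟨f x, rfl, (le_map_iff _ _ _ _ ha).2 ⟨x, rfl, hx⟩⟩

theorem map_iterate {Z X : Type*} [TopologicalSpace Z] [TopologicalSpace X] [T2Space X]
    (φ : Z → X) (hφ : Continuous φ) (f : X → X) (hf : Continuous f) (w : FuzzySet Z) (n : ℕ) :
    (map f hf)^[n] (map φ hφ w) = map (f^[n] ∘ φ) ((hf.iterate n).comp hφ) w := by
  induction n with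
  | zero => rfl
  | succ n ih =>
    rw [Function.iterate_succ_apply', ih, map_map]
    congr 1
    funext z
    exact (Function.iterate_succ_apply' f n (φ z)).symm

theorem dist_map_le {Z Z' X : Type*} [TopologicalSpace Z] [TopologicalSpace Z'] [MetricSpace X]
    (φ : Z → X) (hφ : Continuous φ) (ψ : Z' → X) (hψ : Continuous ψ)
    (w : FuzzySet Z) (w' : FuzzySet Z') {η : ℝ} (hη : 0 < η)
    (h1 : ∀ z, w.toFun z ≤ η ∨ ∃ z', dist (φ z) (ψ z') ≤ η ∧ w.toFun z - η ≤ w'.toFun z')
    (h2 : ∀ z', w'.toFun z' ≤ η ∨ ∃ z, dist (ψ z') (φ z) ≤ η ∧ w'.toFun z' - η ≤ w.toFun z) :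
    dist (map φ hφ w) (map ψ hψ w') ≤ η := by
  rw [dist_def]
  apply hausdorffDist_le_of_mem_dist hη.le
  · rintro ⟨x, t⟩ ⟨ht0, ht⟩
    simp only at ht0 ht
    rcases le_or_gt t η with htη | htη
    · refine ⟨(x, 0), ⟨le_refl _, nonneg _ x⟩, ?_⟩
      rw [Prod.dist_eq]
      simp only [dist_self, Real.dist_eq, sub_zero, abs_of_nonneg ht0]
      exact max_le hη.le htη
    · rw [le_map_iff _ _ _ _ (hη.trans htη)] at ht
      obtain ⟨z, rfl, hz⟩ := ht
      rcases h1 z with h | ⟨z', hz', hw⟩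
      · exact absurd (hz.trans h) (not_le.2 htη)
      · refine ⟨(ψ z', t - η), ⟨by simp only; linarith, ?_⟩, ?_⟩
        · simp only
          rw [le_map_iff _ _ _ _ (by linarith)]
          exact ⟨z', rfl, by linarith⟩
        · rw [Prod.dist_eq]
          apply max_le hz'
          simp only [Real.dist_eq]
          rw [show t - (t - η) = η by ring, abs_of_pos hη]
  · rintro ⟨x, t⟩ ⟨ht0, ht⟩
    simp only at ht0 ht
    rcases le_or_gt t η with htη | htη
    · refine ⟨(x, 0), ⟨le_refl _, nonneg _ x⟩, ?_⟩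
      rw [Prod.dist_eq]
      simp only [dist_self, Real.dist_eq, sub_zero, abs_of_nonneg ht0]
      exact max_le hη.le htη
    · rw [le_map_iff _ _ _ _ (hη.trans htη)] at ht
      obtain ⟨z, rfl, hz⟩ := ht
      rcases h2 z with h | ⟨z', hz', hw⟩
      · exact absurd (hz.trans h) (not_le.2 htη)
      · refine ⟨(φ z', t - η), ⟨by simp only; linarith, ?_⟩, ?_⟩
        · simp only
          rw [le_map_iff _ _ _ _ (by linarith)]
          exact ⟨z', rfl, by linarith⟩
        · rw [Prod.dist_eq]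
          apply max_le hz'
          simp only [Real.dist_eq]
          rw [show t - (t - η) = η by ring, abs_of_pos hη]

end FuzzySet

theorem proximalPair_of {Y : Type*} [PseudoMetricSpace Y] (g : Y → Y) (y z : Y)
    (h : ∀ η > 0, ∀ N : ℕ, ∃ n ≥ N, dist (g^[n] y) (g^[n] z) ≤ η) : ProximalPair g y z := by
  unfold ProximalPair
  apply le_antisymm _ (zero_le)
  apply le_of_forall_gt
  intro c hc
  -- liminf < c
  apply lt_of_le_of_lt (b := min (c / 2) 1)
  · apply liminf_le_of_frequently_le'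
    rw [frequently_atTop]
    intro N
    have hc2 : 0 < (min (c / 2) 1).toReal := by
      apply ENNReal.toReal_pos
      · have : 0 < c / 2 := ENNReal.div_pos hc.ne' (by simp)
        exact (lt_min this one_pos).ne'
      · exact ne_top_of_le_ne_top ENNReal.one_ne_top (min_le_right _ _)
    obtain ⟨n, hn, hd⟩ := h _ hc2 N
    refine ⟨n, hn, ?_⟩
    rw [edist_dist]
    apply ENNReal.ofReal_le_of_le_toReal hd
  · rcases eq_or_ne c ⊤ with rfl | hct
    · exact lt_of_le_of_lt (min_le_right _ _) ENNReal.one_lt_top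
    · exact lt_of_le_of_lt (min_le_left _ _) (ENNReal.half_lt_self hc.ne' hct)

theorem not_proximalPair_of {Y : Type*} [PseudoMetricSpace Y] (g : Y → Y) (y z : Y) {c : ℝ}
    (hc : 0 < c) (N : ℕ)
    (h : ∀ n ≥ N, c ≤ dist (g^[n] y) (g^[n] z)) : ¬ ProximalPair g y z := by
  unfold ProximalPair
  intro h0
  have : ENNReal.ofReal c ≤ liminf (fun n : ℕ => edist (g^[n] y) (g^[n] z)) atTop := by
    apply le_liminf_of_le
    · isBoundedDefault
    · rw [eventually_atTop]
      refine ⟨N, fun n hn => ?_⟩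
      rw [edist_dist]
      exact ENNReal.ofReal_le_ofReal (h n hn)
  rw [h0] at this
  have h2 := ENNReal.ofReal_pos.2 hc
  exact absurd (lt_of_lt_of_le h2 this) (lt_irrefl _)

end Pool.Agent.Helper80.Fz
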