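import Mathlib

open Filter Topology Metric TopologicalSpace

namespace Pool.Agent.Helper80.Fz

/-- A normal fuzzy set on `X`: an upper semicontinuous function `u : X → [0,1]` (real valued,
with `0 ≤ u ≤ 1`) taking the value `1` somewhere and with compact closed support
`closure {x | 0 < u x}`. -/
structure FuzzySet (X : Type*) [TopologicalSpace X] where
  toFun : X → ℝ
  nonneg : ∀ x, 0 ≤ toFun x
  le_one : ∀ x, toFun x ≤ 1
  usc : UpperSemicontinuous toFun
  normal : ∃ x, toFun x = 1
  compact_supp : IsCompact (closure {x | 0 < toFun x})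

namespace FuzzySet

theorem ext' {X : Type*} [TopologicalSpace X] {u v : FuzzySet X}
    (h : ∀ x, u.toFun x = v.toFun x) : u = v := by
  cases u; cases v
  have := funext h
  congr

/-- The endograph `{(x, t) ∈ X × [0,1] | t ≤ u x}`, as a subset of `X × ℝ`
(with the maximum metric). -/
def endograph {X : Type*} [TopologicalSpace X] (u : FuzzySet X) : Set (X × ℝ) :=
  {p | 0 ≤ p.2 ∧ p.2 ≤ u.toFun p.1}

section TopX
variable {X : Type*} [TopologicalSpace X]

theorem endograph_nonempty (u : FuzzySet X) : u.endograph.Nonempty := by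
  obtain ⟨x, hx⟩ := u.normal
  exact ⟨(x, 0), le_refl _, by simpa using u.nonneg x⟩

theorem endograph_closed (u : FuzzySet X) : IsClosed u.endograph := by
  have h1 : IsClosed {p : X × ℝ | p.2 ≤ u.toFun p.1} := u.usc.IsClosed_hypograph
  have h2 : IsClosed {p : X × ℝ | 0 ≤ p.2} := isClosed_Ici.preimage continuous_snd
  exact h2.inter h1

theorem toFun_eq_of_endograph_eq {u v : FuzzySet X} (h : u.endograph = v.endograph) : u = v := by
  apply ext'
  intro x
  apply le_antisymm
  · have : (x, u.toFun x) ∈ u.endograph := ⟨u.nonneg x, le_refl _⟩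
    rw [h] at this
    exact this.2
  · have : (x, v.toFun x) ∈ v.endograph := ⟨v.nonneg x, le_refl _⟩
    rw [← h] at this
    exact this.2

end TopX

section Metr
variable {X : Type*} [MetricSpace X]

theorem edist_endograph_le_one (u v : FuzzySet X) :
    hausdorffEDist u.endograph v.endograph ≤ 1 := by
  apply hausdorffEDist_le_of_mem_edist
  · rintro ⟨x, t⟩ ⟨h0, h1⟩
    refine ⟨(x, 0), ⟨le_refl _, v.nonneg x⟩, ?_⟩
    rw [Prod.edist_eq]
    simp only [edist_self, zero_le, max_eq_right]
    rw [edist_dist, Real.dist_eq, sub_zero, abs_of_nonneg h0]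
    have : t ≤ 1 := h1.trans (u.le_one x)
    exact ENNReal.ofReal_le_one.2 this
  · rintro ⟨x, t⟩ ⟨h0, h1⟩
    refine ⟨(x, 0), ⟨le_refl _, u.nonneg x⟩, ?_⟩
    rw [Prod.edist_eq]
    simp only [edist_self, zero_le, max_eq_right]
    rw [edist_dist, Real.dist_eq, sub_zero, abs_of_nonneg h0]
    have : t ≤ 1 := h1.trans (v.le_one x)
    exact ENNReal.ofReal_le_one.2 this

theorem edist_endograph_ne_top (u v : FuzzySet X) :
    hausdorffEDist u.endograph v.endograph ≠ ⊤ :=
  ne_top_of_le_ne_top ENNReal.one_ne_top (edist_endograph_le_one u v)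

/-- The endograph metric `d_E(u,v)` = Hausdorff distance between the endographs, in
`X × [0,1]` with the maximum metric. -/
noncomputable instance : MetricSpace (FuzzySet X) where
  dist u v := hausdorffDist u.endograph v.endograph
  dist_self u := hausdorffDist_self_zero
  dist_comm u v := hausdorffDist_comm
  dist_triangle u v w := hausdorffDist_triangle (edist_endograph_ne_top u v)
  eq_of_dist_eq_zero {u v} h := by
    apply toFun_eq_of_endograph_eq
    exact (u.endograph_closed.hausdorffDist_zero_iff_eq v.endograph_closed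
      (edist_endograph_ne_top u v)).1 h

theorem dist_def (u v : FuzzySet X) : dist u v = hausdorffDist u.endograph v.endograph := rfl

end Metr

/-- auxiliary: sup over the fibre is attained. -/
theorem exists_max_fiber {X Y : Type*} [TopologicalSpace X] [TopologicalSpace Y] [T2Space Y]
    (f : X → Y) (hf : Continuous f) (u : FuzzySet X) (y : Y)
    (h : 0 < sSup (u.toFun '' (f ⁻¹' {y}))) :
    ∃ x, f x = y ∧ u.toFun x = sSup (u.toFun '' (f ⁻¹' {y})) := by
  set M := sSup (u.toFun '' (f ⁻¹' {y})) with hM
  have hne : (u.toFun '' (f ⁻¹' {y})).Nonempty := by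
    by_contra hne
    rw [Set.not_nonempty_iff_eq_empty] at hne
    rw [hM, hne, Real.sSup_empty] at h
    exact lt_irrefl _ h
  have hbdd : BddAbove (u.toFun '' (f ⁻¹' {y})) := by
    refine ⟨1, ?_⟩
    rintro _ ⟨x, _, rfl⟩
    exact u.le_one x
  set K : Set X := {x | M / 2 ≤ u.toFun x} ∩ f ⁻¹' {y} with hK
  have hKc : IsCompact K := by
    apply u.compact_supp.of_isClosed_subset
    · exact (u.usc.isClosed_preimage (M / 2)).inter (isClosed_singleton.preimage hf)
    · rintro x ⟨hx, _⟩
      apply subset_closure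
      have : M / 2 ≤ u.toFun x := hx
      show 0 < u.toFun x
      linarith
  obtain ⟨_, ⟨x1, hx1, rfl⟩, hx1'⟩ := exists_lt_of_lt_csSup hne (show M / 2 < M by linarith)
  have hKne : K.Nonempty := ⟨x1, le_of_lt hx1', hx1⟩
  obtain ⟨x, hxK, hx⟩ := UpperSemicontinuousOn.exists_isMaxOn hKne hKc
    (u.usc.upperSemicontinuousOn K)
  refine ⟨x, hxK.2, ?_⟩
  apply le_antisymm
  · exact le_csSup hbdd ⟨x, hxK.2, rfl⟩
  · apply csSup_le hne
    rintro _ ⟨z, hz, rfl⟩
    by_cases hz2 : M / 2 ≤ u.toFun z
    · exact hx ⟨hz2, hz⟩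
    · push Not at hz2
      exact hz2.le.trans hxK.1

/-- Zadeh extension of a continuous map `f : X → Y`:
`(f̂ u)(y) = sup {u x | f x = y}`, with `sup ∅ = 0`. -/
noncomputable def map {X Y : Type*} [TopologicalSpace X] [TopologicalSpace Y] [T2Space Y]
    (f : X → Y) (hf : Continuous f) (u : FuzzySet X) : FuzzySet Y where
  toFun y := sSup (u.toFun '' (f ⁻¹' {y}))
  nonneg y := by
    apply Real.sSup_nonneg
    rintro _ ⟨x, _, rfl⟩
    exact u.nonneg x
  le_one y := by
    apply Real.sSup_le
    · rintro _ ⟨x, _, rfl⟩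
      exact u.le_one x
    · exact zero_le_one
  usc := by
    rw [upperSemicontinuous_iff_isClosed_preimage]
    intro a
    rcases le_or_gt a 0 with ha | ha
    · convert isClosed_univ
      ext y
      simp only [Set.mem_preimage, Set.mem_Ici, Set.mem_univ, iff_true]
      refine ha.trans ?_
      apply Real.sSup_nonneg
      rintro _ ⟨x, _, rfl⟩
      exact u.nonneg x
    · have : (fun y => sSup (u.toFun '' (f ⁻¹' {y}))) ⁻¹' Set.Ici a
          = f '' {x | a ≤ u.toFun x} := by
        ext y
        simp only [Set.mem_preimage, Set.mem_Ici, Set.mem_image, Set.mem_ofPred_eq]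
        constructor
        · intro h
          obtain ⟨x, hx, hx'⟩ := exists_max_fiber f hf u y (lt_of_lt_of_le ha h)
          exact ⟨x, by rw [hx']; exact h, hx⟩
        · rintro ⟨x, hx, rfl⟩
          refine hx.trans ?_
          apply le_csSup
          · refine ⟨1, ?_⟩
            rintro _ ⟨x, _, rfl⟩
            exact u.le_one x
          · exact ⟨x, rfl, rfl⟩
      rw [this]
      apply IsCompact.isClosed
      apply IsCompact.image _ hf
      apply u.compact_supp.of_isClosed_subset (u.usc.isClosed_preimage a)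
      intro x hx
      apply subset_closure
      exact lt_of_lt_of_le ha hx
  normal := by
    obtain ⟨x, hx⟩ := u.normal
    refine ⟨f x, ?_⟩
    apply le_antisymm
    · apply Real.sSup_le
      · rintro _ ⟨x, _, rfl⟩
        exact u.le_one x
      · exact zero_le_one
    · rw [← hx]
      apply le_csSup
      · refine ⟨1, ?_⟩
        rintro _ ⟨x, _, rfl⟩
        exact u.le_one x
      · exact ⟨x, rfl, rfl⟩
  compact_supp := by
    apply IsCompact.of_isClosed_subset (u.compact_supp.image hf) isClosed_closure
    apply closure_minimal _ (u.compact_supp.image hf).isClosed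
    intro y hy
    obtain ⟨x, hx, hx'⟩ := exists_max_fiber f hf u y hy
    refine ⟨x, subset_closure ?_, hx⟩
    show 0 < u.toFun x
    rw [hx']
    exact hy

end FuzzySet

/-- `(y,z)` is a proximal pair of `g` : `liminf_n d(gⁿ y, gⁿ z) = 0`
(the liminf is taken in `[0,∞]`). -/
def ProximalPair {Y : Type*} [PseudoMetricSpace Y] (g : Y → Y) (y z : Y) : Prop :=
  liminf (fun n : ℕ => edist (g^[n] y) (g^[n] z)) atTop = 0

/-- the set of proximal pairs is dense in `Y × Y`. -/
def HasDenseProximalRelation {Y : Type*} [PseudoMetricSpace Y] (g : Y → Y) : Prop :=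
  Dense {p : Y × Y | ProximalPair g p.1 p.2}

end Pool.Agent.Helper80.Fz
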