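import Pool.Agent.Helper80.Fz.Space

open Filter Topology Metric TopologicalSpace

namespace Pool.Agent.Helper80.Fz

namespace Pt
variable {F : Fam}

/-- value used in the fourth coordinate -/
noncomputable def ht (F : Fam) (m : ℕ) (e : ℝ) (x : Pt F) : ℝ :=
  e ^ 2 * F.tau m x.q x.s + e * x.q

theorem rho_nonneg (m : ℕ) (q : ℚ) (s : ℝ) : 0 ≤ F.rho m q s := by
  unfold Fam.rho
  have h1 : 0 ≤ F.g m q := by
    by_cases hq : q ∈ F.Q m
    · rw [F.gQ m q hq]
    · exact (F.g_pos m q hq).le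
  have := le_max_left 0 (|F.tau m q s| - 1)
  linarith

theorem of_rho_zero {m : ℕ} {q : ℚ} {s : ℝ} (h : F.rho m q s = 0) : q ∈ F.Q m := by
  by_contra hq
  have h1 := F.g_pos m q hq
  have := le_max_left 0 (|F.tau m q s| - 1)
  unfold Fam.rho at h
  linarith

/-- Separation when `ρ` is positive at some point `x` with `|x.s| ≥ 1`. -/
theorem sep_of_rho {m : ℕ} {e : ℝ} {x y : Pt F} (hx : 1 ≤ |x.s|) (hxy : x.s * y.s ≤ 0)
    (h : 1 ≤ e ^ 2 * F.rho m x.q x.s) :
    1 ≤ |(e ^ 2 * F.rho m x.q x.s * x.s) - (e ^ 2 * F.rho m y.q y.s * y.s)| := by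
  have h0 : 0 ≤ e ^ 2 * F.rho m y.q y.s := mul_nonneg (sq_nonneg _) (rho_nonneg _ _ _)
  set A := e ^ 2 * F.rho m x.q x.s with hA
  set B := e ^ 2 * F.rho m y.q y.s with hB
  rcases le_total 0 x.s with hs | hs
  · rw [abs_of_nonneg hs] at hx
    have hy : y.s ≤ 0 := by
      by_contra hy
      push Not at hy
      nlinarith
    have h1 : B * y.s ≤ 0 := mul_nonpos_of_nonneg_of_nonpos h0 hy
    have h2 : 1 ≤ A * x.s := by nlinarith
    rw [abs_of_nonneg (by linarith)]
    linarith
  · rw [abs_of_nonpos hs] at hx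
    have hy : 0 ≤ y.s := by
      by_contra hy
      push Not at hy
      nlinarith
    have h1 : 0 ≤ B * y.s := mul_nonneg h0 hy
    have h2 : A * x.s ≤ -1 := by nlinarith
    rw [abs_of_nonpos (by linarith)]
    linarith

/-- Main one-sided separation on the strip. `W` = everything, `x` = lexicographic maximum. -/
theorem sep_lex (m : ℕ) {L : Set (Pt F)} (hL : IsCompact L) (x : Pt F) (hxn : x.n = 0)
    (hLn : ∀ y ∈ L, y.n = 0)
    (hLQ : ∀ y ∈ L, y.q ∈ F.Q m)
    (hxL : x ∉ L) (hmax : ∀ y ∈ L, F.tau m y.q y.s ≤ F.tau m x.q x.s)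
    (hlex : ∀ y ∈ L, F.tau m y.q y.s = F.tau m x.q x.s → y.q ≤ x.q)
    (hb : ∀ y ∈ L, (y.q : ℝ) - x.q ≤ 2) :
    ∃ e0 : ℝ, ∀ e : ℝ, e0 ≤ e → ∀ y ∈ L, 1 ≤ ht F m e x - ht F m e y := by
  -- part 1: points with larger q
  have part1 : ∃ e1 : ℝ, ∀ e : ℝ, e1 ≤ e → ∀ y ∈ L, x.q ≤ y.q →
      1 ≤ ht F m e x - ht F m e y := by
    set L1 : Set (Pt F) := L ∩ {y | (x.q : ℝ) ≤ y.q} with hL1
    have hL1c : IsCompact L1 := hL.inter_right (isClosed_Ici.preimage q_cont)
    rcases L1.eq_empty_or_nonempty with hempty | hne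
    · refine ⟨0, fun e _ y hy hq => ?_⟩
      exfalso
      have : y ∈ L1 := ⟨hy, by simpa using hq⟩
      rw [hempty] at this
      exact this
    · obtain ⟨z, hz, hzmax⟩ := hL1c.exists_isMaxOn hne (tau_cont (F := F) m).continuousOn
      have hlt : F.tau m z.q z.s < F.tau m x.q x.s := by
        rcases (hmax z hz.1).lt_or_eq with h | h
        · exact h
        · exfalso
          have hq1 := hlex z hz.1 h
          have hq2 : x.q ≤ z.q := by
            have : (x.q : ℝ) ≤ z.q := hz.2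
            exact_mod_cast this
          have hq : z.q = x.q := le_antisymm hq1 hq2
          have hs : z.s = x.s := by
            unfold Fam.tau at h
            rw [hq] at h
            have hc := (F.hc m).ne'
            field_simp at h
            linarith
          have hn : z.n = x.n := by rw [hxn, hLn z hz.1]
          exact hxL ((Pt.ext hq hs hn : z = x) ▸ hz.1)
      set β := F.tau m x.q x.s - F.tau m z.q z.s with hβ
      have hβ0 : 0 < β := by rw [hβ]; linarith
      refine ⟨max 1 (3 / β), fun e he y hy hq => ?_⟩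
      have he1 : 1 ≤ e := (le_max_left _ _).trans he
      have he2 : 3 / β ≤ e := (le_max_right _ _).trans he
      have he3 : 3 ≤ e * β := by
        rw [div_le_iff₀ hβ0] at he2; linarith
      have hyL1 : y ∈ L1 := ⟨hy, by simpa using hq⟩
      have ht1 : F.tau m y.q y.s ≤ F.tau m z.q z.s := hzmax hyL1
      have hq2 := hb y hy
      unfold ht
      have h1 : β ≤ F.tau m x.q x.s - F.tau m y.q y.s := by rw [hβ]; linarith
      have h2 : e ^ 2 * β ≤ e ^ 2 * (F.tau m x.q x.s - F.tau m y.q y.s) :=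
        mul_le_mul_of_nonneg_left h1 (sq_nonneg _)
      have h3 : e * ((y.q : ℝ) - x.q) ≤ e * 2 := mul_le_mul_of_nonneg_left hq2 (by linarith)
      have h4 : e * 3 ≤ e ^ 2 * β := by nlinarith
      nlinarith
  have part2 : ∃ e2 : ℝ, ∀ e : ℝ, e2 ≤ e → ∀ y ∈ L, y.q < x.q →
      1 ≤ ht F m e x - ht F m e y := by
    have hγ : ∃ γ : ℝ, 0 < γ ∧ ∀ q ∈ F.Q m, q < x.q → γ ≤ (x.q : ℝ) - q := by
      set S := (F.Q m).filter (fun q => q < x.q) with hS
      rcases S.eq_empty_or_nonempty with hempty | hne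
      · refine ⟨1, one_pos, fun q hq hlt => ?_⟩
        exfalso
        have : q ∈ S := by rw [hS, Finset.mem_filter]; exact ⟨hq, hlt⟩
        rw [hempty] at this
        simp at this
      · obtain ⟨q0, hq0, hq0max⟩ := S.exists_max_image id hne
        rw [hS, Finset.mem_filter] at hq0
        refine ⟨(x.q : ℝ) - q0, ?_, fun q hq hlt => ?_⟩
        · have : (q0 : ℝ) < x.q := by exact_mod_cast hq0.2
          linarith
        · have h1 := hq0max q (by rw [hS, Finset.mem_filter]; exact ⟨hq, hlt⟩)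
          have : (q : ℝ) ≤ q0 := by exact_mod_cast h1
          linarith
    obtain ⟨γ, hγ0, hγ⟩ := hγ
    refine ⟨max 1 (1 / γ), fun e he y hy hq => ?_⟩
    have he1 : 1 ≤ e := (le_max_left _ _).trans he
    have he2 : 1 / γ ≤ e := (le_max_right _ _).trans he
    have he3 : 1 ≤ e * γ := by
      rw [div_le_iff₀ hγ0] at he2; linarith
    have h1 := hγ y.q (hLQ y hy) hq
    have h2 := hmax y hy
    unfold ht
    have h3 : 0 ≤ e ^ 2 * (F.tau m x.q x.s - F.tau m y.q y.s) :=
      mul_nonneg (sq_nonneg _) (by linarith)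
    have h4 : e * γ ≤ e * ((x.q : ℝ) - y.q) := mul_le_mul_of_nonneg_left h1 (by linarith)
    nlinarith
  obtain ⟨e1, h1⟩ := part1
  obtain ⟨e2, h2⟩ := part2
  refine ⟨max e1 e2, fun e he y hy => ?_⟩
  rcases le_or_gt x.q y.q with h | h
  · exact h1 e ((le_max_left _ _).trans he) y hy h
  · exact h2 e ((le_max_right _ _).trans he) y hy h

/-- separation statement at parameters `(m, e)` : some point of one of the sets is at distance
`≥ 1` (in the fourth or fifth coordinate) from all points of the other. -/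
def Sep (m : ℕ) (e : ℝ) (K L : Set (Pt F)) : Prop :=
  ∃ x ∈ K, ∀ y ∈ L, 1 ≤ |ht F m e x - ht F m e y| ∨
    1 ≤ |(e ^ 2 * F.rho m x.q x.s * x.s) - (e ^ 2 * F.rho m y.q y.s * y.s)|

theorem sep_fixed (m : ℕ) {K L : Set (Pt F)} (hK : IsCompact K) (hL : IsCompact L)
    (hKne : K.Nonempty) (_hLne : L.Nonempty)
    (hKn : ∀ x ∈ K, x.n = 0 ∧ |(x.q : ℝ)| ≤ 1 ∧ x.s ≤ -1)
    (hLn : ∀ x ∈ L, x.n = 0 ∧ |(x.q : ℝ)| ≤ 1 ∧ 1 ≤ x.s) :
    ∃ e0 : ℝ, ∀ e : ℝ, e0 ≤ e → Sep m e K L ∨ Sep m e L K := by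
  by_cases hrho : ∀ x ∈ K ∪ L, F.rho m x.q x.s = 0
  · -- everything in the strip
    have hWc : IsCompact (K ∪ L) := hK.union hL
    obtain ⟨x1, hx1, hx1max⟩ := hWc.exists_isMaxOn (hKne.mono Set.subset_union_left)
      (tau_cont (F := F) m).continuousOn
    set W : Set (Pt F) := (K ∪ L) ∩ {x | F.tau m x.q x.s = F.tau m x1.q x1.s} with hW
    have hWc' : IsCompact W :=
      hWc.inter_right (isClosed_singleton.preimage (tau_cont (F := F) m))
    obtain ⟨x, hx, hxmax⟩ := hWc'.exists_isMaxOn ⟨x1, hx1, rfl⟩ (q_cont (F := F)).continuousOn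
    have hxt : F.tau m x.q x.s = F.tau m x1.q x1.s := hx.2
    have hmax : ∀ y ∈ K ∪ L, F.tau m y.q y.s ≤ F.tau m x.q x.s := by
      intro y hy
      rw [hxt]
      exact hx1max hy
    have hlex : ∀ y ∈ K ∪ L, F.tau m y.q y.s = F.tau m x.q x.s → y.q ≤ x.q := by
      intro y hy h
      have : (y.q : ℝ) ≤ x.q := hxmax ⟨hy, h.trans hxt⟩
      exact_mod_cast this
    rcases hx.1 with hxK | hxL
    · have hxL : x ∉ L := fun h => by
        have := (hKn x hxK).2.2
        have := (hLn x h).2.2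
        linarith
      obtain ⟨e0, h0⟩ := sep_lex m hL x (hKn x hxK).1 (fun y hy => (hLn y hy).1)
        (fun y hy => of_rho_zero (hrho y (Or.inr hy))) hxL
        (fun y hy => hmax y (Or.inr hy)) (fun y hy => hlex y (Or.inr hy))
        (fun y hy => by
          have h1 := abs_le.1 (hLn y hy).2.1
          have h2 := abs_le.1 (hKn x hxK).2.1
          linarith [h1.2, h2.1])
      refine ⟨e0, fun e he => Or.inl ⟨x, hxK, fun y hy => Or.inl ?_⟩⟩
      exact (h0 e he y hy).trans (le_abs_self _)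
    · have hxK : x ∉ K := fun h => by
        have := (hKn x h).2.2
        have := (hLn x hxL).2.2
        linarith
      obtain ⟨e0, h0⟩ := sep_lex m hK x (hLn x hxL).1 (fun y hy => (hKn y hy).1)
        (fun y hy => of_rho_zero (hrho y (Or.inl hy))) hxK
        (fun y hy => hmax y (Or.inl hy)) (fun y hy => hlex y (Or.inl hy))
        (fun y hy => by
          have h1 := abs_le.1 (hKn y hy).2.1
          have h2 := abs_le.1 (hLn x hxL).2.1
          linarith [h1.2, h2.1])
      refine ⟨e0, fun e he => Or.inr ⟨x, hxL, fun y hy => Or.inl ?_⟩⟩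
      exact (h0 e he y hy).trans (le_abs_self _)
  · push Not at hrho
    obtain ⟨x, hx, hxr⟩ := hrho
    have hpos : 0 < F.rho m x.q x.s := lt_of_le_of_ne (rho_nonneg _ _ _) (Ne.symm hxr)
    refine ⟨max 1 (1 / F.rho m x.q x.s), fun e he => ?_⟩
    have he1 : 1 ≤ e := (le_max_left _ _).trans he
    have he2 : 1 / F.rho m x.q x.s ≤ e := (le_max_right _ _).trans he
    have he3 : 1 ≤ e ^ 2 * F.rho m x.q x.s := by
      rw [div_le_iff₀ hpos] at he2
      nlinarith
    rcases hx with hxK | hxL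
    · left
      refine ⟨x, hxK, fun y hy => Or.inr ?_⟩
      have h1 := (hKn x hxK).2.2
      have h2 := (hLn y hy).2.2
      exact sep_of_rho (by rw [abs_of_nonpos (by linarith)]; linarith) (by nlinarith) he3
    · right
      refine ⟨x, hxL, fun y hy => Or.inr ?_⟩
      have h1 := (hLn x hxL).2.2
      have h2 := (hKn y hy).2.2
      exact sep_of_rho (by rw [abs_of_nonneg (by linarith)]; linarith) (by nlinarith) he3

theorem sep_all {K L : Set (Pt F)} (hK : IsCompact K) (hL : IsCompact L)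
    (hKne : K.Nonempty) (_hLne : L.Nonempty)
    (hKn : ∀ x ∈ K, x.n = 0 ∧ |(x.q : ℝ)| ≤ 1 ∧ x.s ≤ -1)
    (hLn : ∀ x ∈ L, x.n = 0 ∧ |(x.q : ℝ)| ≤ 1 ∧ 1 ≤ x.s) :
    ∃ e0 : ℝ, ∀ m : ℕ, ∀ e : ℝ, e0 ≤ e → Sep m e K L ∨ Sep m e L K := by
  obtain ⟨x0, hx0⟩ := hKne
  set k0 := Encodable.encode x0.q with hk0
  have h := fun m => sep_fixed (F := F) m hK hL ⟨x0, hx0⟩ _hLne hKn hLn
  choose e1 he1 using h
  have hfin : ∃ E : ℝ, ∀ m ≤ k0, e1 m ≤ E := by
    obtain ⟨m0, _, hm0⟩ := (Finset.range (k0 + 1)).exists_max_image e1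
      ⟨0, Finset.mem_range.2 (Nat.succ_pos _)⟩
    exact ⟨e1 m0, fun m hm => hm0 m (Finset.mem_range.2 (Nat.lt_succ_of_le hm))⟩
  obtain ⟨E, hE⟩ := hfin
  refine ⟨max 1 E, fun m e he => ?_⟩
  have he1' : 1 ≤ e := (le_max_left _ _).trans he
  have he2 : E ≤ e := (le_max_right _ _).trans he
  rcases le_or_gt m k0 with hm | hm
  · exact he1 m e ((hE m hm).trans he2)
  · left
    refine ⟨x0, hx0, fun y hy => Or.inr ?_⟩
    have h1 := (hKn x0 hx0).2.2
    have h2 := (hLn y hy).2.2
    have hr : 1 ≤ F.rho m x0.q x0.s := by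
      unfold Fam.rho
      have := F.g_fresh m x0.q hm
      have := le_max_left 0 (|F.tau m x0.q x0.s| - 1)
      linarith
    exact sep_of_rho (by rw [abs_of_nonpos (by linarith)]; linarith) (by nlinarith)
      (by nlinarith)

end Pt

open Pt in
theorem not_dense (F : Fam) :
    ¬ HasDenseProximalRelation (NonemptyCompacts.map (shift (F := F)) shift_cont) := by
  intro H
  let a : Pt F := ⟨0, -2, 0⟩
  let b : Pt F := ⟨0, 2, 0⟩
  let K0 : NonemptyCompacts (Pt F) := {a}
  let L0 : NonemptyCompacts (Pt F) := {b}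
  obtain ⟨⟨K, L⟩, hKL, hd⟩ := Metric.dense_iff.1 H (K0, L0) (1 / 2) (by norm_num)
  rw [Metric.mem_ball, Prod.dist_eq, max_lt_iff] at hKL
  simp only at hKL
  obtain ⟨hKd, hLd⟩ := hKL
  have hprox : ProximalPair (NonemptyCompacts.map (shift (F := F)) shift_cont) K L := hd
  -- points of K near a
  have hKa : ∀ x ∈ (K : Set (Pt F)), dist x a < 1 / 2 := by
    intro x hx
    rw [NonemptyCompacts.dist_eq] at hKd
    obtain ⟨y, hy, hxy⟩ := exists_dist_lt_of_hausdorffDist_lt hx hKd
      (hausdorffEDist_ne_top_of_nonempty_of_bounded K.nonempty K0.nonempty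
        K.isCompact.isBounded K0.isCompact.isBounded)
    have : y = a := by simpa [K0] using hy
    rwa [this] at hxy
  have hLb : ∀ x ∈ (L : Set (Pt F)), dist x b < 1 / 2 := by
    intro x hx
    rw [NonemptyCompacts.dist_eq] at hLd
    obtain ⟨y, hy, hxy⟩ := exists_dist_lt_of_hausdorffDist_lt hx hLd
      (hausdorffEDist_ne_top_of_nonempty_of_bounded L.nonempty L0.nonempty
        L.isCompact.isBounded L0.isCompact.isBounded)
    have : y = b := by simpa [L0] using hy
    rwa [this] at hxy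
  have hKn : ∀ x ∈ (K : Set (Pt F)), x.n = 0 ∧ |(x.q : ℝ)| ≤ 1 ∧ x.s ≤ -1 := by
    intro x hx
    have h1 := hKa x hx
    have hn : x.n = 0 := by
      have : dist x a < (1 / 2 : ℝ) ^ (a.n + 1) := by simpa [a] using h1
      exact level this
    have h2 := (d2 x a).trans_lt h1
    have h3 := (d3 x a).trans_lt h1
    rw [hn] at h2 h3
    simp only [a, pow_zero, one_mul, Rat.cast_zero, sub_zero] at h2 h3
    refine ⟨hn, by linarith, ?_⟩
    have := (abs_lt.1 h3).2
    linarith
  have hLn : ∀ x ∈ (L : Set (Pt F)), x.n = 0 ∧ |(x.q : ℝ)| ≤ 1 ∧ 1 ≤ x.s := by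
    intro x hx
    have h1 := hLb x hx
    have hn : x.n = 0 := by
      have : dist x b < (1 / 2 : ℝ) ^ (b.n + 1) := by simpa [b] using h1
      exact level this
    have h2 := (d2 x b).trans_lt h1
    have h3 := (d3 x b).trans_lt h1
    rw [hn] at h2 h3
    simp only [b, pow_zero, one_mul, Rat.cast_zero, sub_zero] at h2 h3
    refine ⟨hn, by linarith, ?_⟩
    have := (abs_lt.1 h3).1
    linarith
  obtain ⟨e0, he0⟩ := sep_all K.isCompact L.isCompact K.nonempty L.nonempty hKn hLn
  obtain ⟨N, hN⟩ := exists_nat_ge e0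
  refine not_proximalPair_of _ K L (c := 1) one_pos (N * N) (fun n hn => ?_) hprox
  have hsq : N ≤ Nat.sqrt n := Nat.le_sqrt.2 hn
  have he : e0 ≤ (Nat.sqrt n : ℝ) := hN.trans (by exact_mod_cast hsq)
  -- iterates
  have hit : ∀ (A : NonemptyCompacts (Pt F)) (k : ℕ),
      (((NonemptyCompacts.map (shift (F := F)) shift_cont)^[k] A : NonemptyCompacts (Pt F)) :
        Set (Pt F)) = shift^[k] '' (A : Set (Pt F)) := by
    intro A k
    induction k with
    | zero => simp
    | succ k ih =>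
      rw [Function.iterate_succ_apply', NonemptyCompacts.coe_map, ih, Set.image_image]
      congr 1
      funext x
      rw [Function.iterate_succ_apply']
  have key : ∀ A B : NonemptyCompacts (Pt F), (∀ x ∈ (A : Set (Pt F)), x.n = 0) →
      (∀ x ∈ (B : Set (Pt F)), x.n = 0) → Sep (Fam.idx n) (Nat.sqrt n : ℝ)
        (A : Set (Pt F)) (B : Set (Pt F)) →
      1 ≤ dist ((NonemptyCompacts.map (shift (F := F)) shift_cont)^[n] A)
        ((NonemptyCompacts.map (shift (F := F)) shift_cont)^[n] B) := by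
    intro A B hA hB hsep
    by_contra hlt
    push Not at hlt
    obtain ⟨x, hx, hxy⟩ := hsep
    rw [NonemptyCompacts.dist_eq] at hlt
    have hmem : shift^[n] x ∈ (((NonemptyCompacts.map (shift (F := F)) shift_cont)^[n] A :
        NonemptyCompacts (Pt F)) : Set (Pt F)) := by
      rw [hit]; exact ⟨x, hx, rfl⟩
    obtain ⟨z, hz, hxz⟩ := exists_dist_lt_of_hausdorffDist_lt hmem hlt
      (hausdorffEDist_ne_top_of_nonempty_of_bounded (NonemptyCompacts.nonempty _)
        (NonemptyCompacts.nonempty _)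
        (NonemptyCompacts.isCompact _).isBounded (NonemptyCompacts.isCompact _).isBounded)
    rw [hit] at hz
    obtain ⟨y, hy, rfl⟩ := hz
    have e1 := (d4 _ _).trans_lt hxz
    have e2 := (d5 _ _).trans_lt hxz
    simp only [shift_iterate, hA x hx, hB y hy, zero_add] at e1 e2
    rcases hxy y hy with h | h
    · unfold ht at h
      linarith
    · linarith
  rcases he0 (Fam.idx n) _ he with h | h
  · exact key K L (fun x hx => (hKn x hx).1) (fun x hx => (hLn x hx).1) h
  · rw [dist_comm]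
    exact key L K (fun x hx => (hLn x hx).1) (fun x hx => (hKn x hx).1) h

end Pool.Agent.Helper80.Fz
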