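import Pool.Agent.Helper80.Fz.Family
import Pool.Agent.Helper80.Fz.NonProx

open Filter Topology Metric TopologicalSpace

namespace Pool.Agent.Helper80.Fz

theorem exists_net {X : Type*} [MetricSpace X] (u : FuzzySet X) {ε : ℝ} (hε : 0 < ε) :
    ∃ (r : ℕ) (x : Fin r → X) (t : Fin r → ℝ), (∀ j, 0 ≤ t j ∧ t j ≤ u.toFun (x j)) ∧
      (∃ j, t j = 1) ∧ ∀ x' t', 0 < t' → t' ≤ u.toFun x' →
        ∃ j, dist x' (x j) < ε ∧ |t' - t j| < ε := by
  obtain ⟨x0, hx0⟩ := u.normal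
  set E : Set (X × ℝ) := u.endograph ∩ (closure {x | 0 < u.toFun x}) ×ˢ Set.Icc (0 : ℝ) 1 with hE
  have hEc : IsCompact E := (u.compact_supp.prod isCompact_Icc).inter_left u.endograph_closed
  obtain ⟨T, hTE, hTfin, hT⟩ := hEc.finite_cover_balls hε
  classical
  set T' : Finset (X × ℝ) := insert (x0, 1) hTfin.toFinset with hT'
  let eqv := T'.equivFin
  have hmemE : ∀ p ∈ T', p ∈ u.endograph := by
    intro p hp
    rw [hT', Finset.mem_insert] at hp
    rcases hp with rfl | hp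
    · exact ⟨zero_le_one, hx0.ge⟩
    · exact (hTE (hTfin.mem_toFinset.1 hp)).1
  refine ⟨T'.card, fun j => (eqv.symm j : X × ℝ).1, fun j => (eqv.symm j : X × ℝ).2,
    fun j => hmemE _ (eqv.symm j).2, ?_, ?_⟩
  · refine ⟨eqv ⟨(x0, 1), by rw [hT']; exact Finset.mem_insert_self _ _⟩, ?_⟩
    simp
  · intro x' t' ht' hle
    have hmem : (x', t') ∈ E := by
      refine ⟨⟨ht'.le, hle⟩, ⟨subset_closure (lt_of_lt_of_le ht' hle), ht'.le,
        hle.trans (u.le_one x')⟩⟩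
    have := hT hmem
    simp only [Set.mem_iUnion] at this
    obtain ⟨p, hpT, hp⟩ := this
    have hpT' : p ∈ T' := by
      rw [hT', Finset.mem_insert]
      exact Or.inr (hTfin.mem_toFinset.2 hpT)
    refine ⟨eqv ⟨p, hpT'⟩, ?_⟩
    simp only [Equiv.symm_apply_apply]
    rw [mem_ball, Prod.dist_eq, max_lt_iff] at hp
    exact hp

/-- The model space for hats. -/
abbrev Z (r : ℕ) : Type := Fin r × Set.Icc (-1 : ℝ) 1

/-- The hat functions `(j,θ) ↦ t_j (1 - |θ|)`. -/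
noncomputable def hat {r : ℕ} (t : Fin r → ℝ) (h0 : ∀ j, 0 ≤ t j) (h1 : ∀ j, t j ≤ 1)
    (hn : ∃ j, t j = 1) : FuzzySet (Z r) where
  toFun z := t z.1 * (1 - |(z.2 : ℝ)|)
  nonneg z := by
    have := abs_le.2 ⟨z.2.2.1, z.2.2.2⟩
    exact mul_nonneg (h0 _) (by linarith)
  le_one z := by
    have := abs_nonneg (z.2 : ℝ)
    have h2 := abs_le.2 ⟨z.2.2.1, z.2.2.2⟩
    have := h0 z.1
    have := h1 z.1
    nlinarith
  usc := by
    apply Continuous.upperSemicontinuous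
    apply Continuous.mul
    · exact (continuous_of_discreteTopology (f := t)).comp continuous_fst
    · exact continuous_const.sub (continuous_subtype_val.comp continuous_snd).abs
  normal := by
    obtain ⟨j, hj⟩ := hn
    exact ⟨(j, ⟨0, by norm_num, by norm_num⟩), by simp [hj]⟩
  compact_supp := isClosed_closure.isCompact

theorem hat_apply {r : ℕ} (t : Fin r → ℝ) (h0 : ∀ j, 0 ≤ t j) (h1 : ∀ j, t j ≤ 1)
    (hn : ∃ j, t j = 1) (z : Z r) : (hat t h0 h1 hn).toFun z = t z.1 * (1 - |(z.2 : ℝ)|) := rfl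

theorem approx {X : Type*} [MetricSpace X] (u : FuzzySet X) {ε : ℝ} (hε : 0 < ε)
    {r : ℕ} (x : Fin r → X) (t : Fin r → ℝ) (h : ∀ j, 0 ≤ t j ∧ t j ≤ u.toFun (x j))
    (hn : ∃ j, t j = 1)
    (hnet : ∀ x' t', 0 < t' → t' ≤ u.toFun x' →
        ∃ j, dist x' (x j) < ε ∧ |t' - t j| < ε)
    (φ : Z r → X) (hφ : Continuous φ) (hφx : ∀ z, dist (φ z) (x z.1) < ε) :
    dist (FuzzySet.map φ hφ (hat t (fun j => (h j).1)
      (fun j => (h j).2.trans (u.le_one _)) hn)) u ≤ 2 * ε := by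
  rw [FuzzySet.dist_def]
  apply hausdorffDist_le_of_mem_dist (by linarith)
  · rintro ⟨y, s⟩ ⟨hs0, hs⟩
    simp only at hs0 hs
    rcases hs0.eq_or_lt with hs0 | hs0
    · subst hs0
      exact ⟨(y, 0), ⟨le_refl _, u.nonneg y⟩, by simp [hε.le]⟩
    · rw [FuzzySet.le_map_iff _ _ _ _ hs0] at hs
      obtain ⟨z, rfl, hz⟩ := hs
      rw [hat_apply] at hz
      refine ⟨(x z.1, s), ⟨hs0.le, ?_⟩, ?_⟩
      · simp only
        have h1 := h z.1
        have h2 := abs_nonneg (z.2 : ℝ)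
        nlinarith
      · rw [Prod.dist_eq]
        simp only [dist_self]
        exact max_le (by linarith [hφx z]) (by linarith)
  · rintro ⟨y, s⟩ ⟨hs0, hs⟩
    simp only at hs0 hs
    rcases hs0.eq_or_lt with hs0 | hs0
    · subst hs0
      exact ⟨(y, 0), ⟨le_refl _, FuzzySet.nonneg _ y⟩, by simp [hε.le]⟩
    · obtain ⟨j, hj1, hj2⟩ := hnet y s hs0 hs
      have h0mem : (0 : ℝ) ∈ Set.Icc (-1 : ℝ) 1 := ⟨by norm_num, by norm_num⟩
      refine ⟨(φ (j, ⟨0, h0mem⟩), t j), ⟨(h j).1, ?_⟩, ?_⟩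
      · simp only
        rcases (h j).1.eq_or_lt with ht0 | ht0
        · rw [← ht0]; exact FuzzySet.nonneg _ _
        · rw [FuzzySet.le_map_iff _ _ _ _ ht0]
          exact ⟨(j, ⟨0, h0mem⟩), rfl, by rw [hat_apply]; simp⟩
      · rw [Prod.dist_eq]
        apply max_le
        · simp only
          calc dist y (φ (j, ⟨0, h0mem⟩)) ≤ dist y (x j) + dist (x j) (φ (j, ⟨0, h0mem⟩)) :=
                dist_triangle _ _ _
            _ ≤ 2 * ε := by
                have := hφx (j, ⟨0, h0mem⟩)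
                rw [dist_comm] at this
                simp only at this
                linarith
        · simp only [Real.dist_eq]
          linarith

/-- the arcs -/
noncomputable def phi (F : Fam) (m : ℕ) {r : ℕ} (a : Fin r → ℚ) (n : Fin r → ℕ) (z : Z r) :
    Pt F := ⟨a z.1, F.P m (a z.1) + F.c m * z.2, n z.1⟩

theorem phi_cont (F : Fam) (m : ℕ) {r : ℕ} (a : Fin r → ℚ) (n : Fin r → ℕ) :
    Continuous (phi F m a n) := by
  rw [continuous_prod_of_discrete_left]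
  intro j
  exact (Pt.arc_cont (F := F) (a j) (F.P m (a j)) (F.c m) (n j)).comp continuous_subtype_val

theorem tau_phi (F : Fam) (m : ℕ) (q : ℚ) (θ : ℝ) :
    F.tau m q (F.P m q + F.c m * θ) = θ := by
  unfold Fam.tau
  have := (F.hc m).ne'
  field_simp
  ring

theorem rho_phi (F : Fam) (m : ℕ) (q : ℚ) (hq : q ∈ F.Q m) {θ : ℝ} (hθ : |θ| ≤ 1) :
    F.rho m q (F.P m q + F.c m * θ) = 0 := by
  unfold Fam.rho
  rw [tau_phi, F.gQ m q hq, max_eq_left (by linarith), add_zero]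

theorem align (F : Fam) (m : ℕ) {r r' : ℕ} (a : Fin r → ℚ) (n : Fin r → ℕ) (b : Fin r' → ℚ)
    (n' : Fin r' → ℕ) (ha : ∀ j, a j ∈ F.Q m) (hb : ∀ j, b j ∈ F.Q m)
    (t : Fin r → ℝ) (h0 : ∀ j, 0 ≤ t j) (h1 : ∀ j, t j ≤ 1) (hn : ∃ j, t j = 1)
    (t' : Fin r' → ℝ) (h0' : ∀ j, 0 ≤ t' j) (h1' : ∀ j, t' j ≤ 1) (hn' : ∃ j, t' j = 1)
    (C η : ℝ) (e : ℕ) (he : 1 ≤ e) (hη : 0 < η)
    (hCa : ∀ j, |(a j : ℝ)| ≤ C ∧ |F.P m (a j)| + F.c m ≤ C)
    (hCb : ∀ j, |(b j : ℝ)| ≤ C ∧ |F.P m (b j)| + F.c m ≤ C)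
    (hna : ∀ j, n j ≤ e) (hnb : ∀ j, n' j ≤ e) (hm : (Nat.unpair e).1 = m)
    (he1 : 2 * C / e ≤ η) (he2 : (1 / 2 : ℝ) ^ (e * e) * (2 * C + 1) ≤ η) (z : Z r) :
    (hat t h0 h1 hn).toFun z ≤ η ∨ ∃ z' : Z r',
      dist ((Pt.shift^[e * e] ∘ phi F m a n) z) ((Pt.shift^[e * e] ∘ phi F m b n') z') ≤ η ∧
      (hat t h0 h1 hn).toFun z - η ≤ (hat t' h0' h1' hn').toFun z' := by
  obtain ⟨j, hj⟩ := hn'
  obtain ⟨i, θ, hθ⟩ := z
  have hθ1 : |θ| ≤ 1 := abs_le.2 ⟨hθ.1, hθ.2⟩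
  rcases le_or_gt ((hat t h0 h1 hn).toFun (i, ⟨θ, hθ⟩)) η with h | h
  · exact Or.inl h
  · right
    rw [hat_apply] at h
    simp only at h
    have he0 : (0 : ℝ) < e := by exact_mod_cast he
    have hθη : |θ| < 1 - η := by
      have := h0 i
      have := h1 i
      nlinarith
    set σ : ℝ := ((a i : ℝ) - b j) / e with hσ
    have hσe : e * σ = (a i : ℝ) - b j := by rw [hσ]; field_simp
    have hσ1 : |σ| ≤ η := by
      rw [hσ, abs_div, abs_of_pos he0]
      refine le_trans ?_ he1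
      apply div_le_div_of_nonneg_right _ he0.le
      have h2 := abs_le.1 (hCa i).1
      have h3 := abs_le.1 (hCb j).1
      rw [abs_le]
      constructor <;> linarith
    have hθ' : |θ + σ| ≤ |θ| + η := (abs_add_le _ _).trans (by linarith)
    have hmem : θ + σ ∈ Set.Icc (-1 : ℝ) 1 := by
      have := abs_le.1 (hθ'.trans (by linarith : |θ| + η ≤ 1))
      exact this
    have habs : |θ + σ| ≤ 1 := abs_le.2 hmem
    refine ⟨(j, ⟨θ + σ, hmem⟩), ?_, ?_⟩
    · have hsa : Nat.sqrt (n i + e * e) = e := by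
        rw [add_comm]; exact Nat.sqrt_add_eq e (by have := hna i; omega)
      have hsb : Nat.sqrt (n' j + e * e) = e := by
        rw [add_comm]; exact Nat.sqrt_add_eq e (by have := hnb j; omega)
      have hp : ∀ k : ℕ, (1 / 2 : ℝ) ^ (k + e * e) ≤ (1 / 2 : ℝ) ^ (e * e) := fun k =>
        pow_le_pow_of_le_one (by norm_num) (by norm_num) (by omega)
      have hp0 : ∀ k : ℕ, (0 : ℝ) < (1 / 2 : ℝ) ^ k := fun k => by positivity
      have hC0 : 0 ≤ C := (abs_nonneg _).trans (hCa i).1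
      have hbound : ∀ (k k' : ℕ) (x y : ℝ), |x| ≤ C → |y| ≤ C →
          |(1 / 2 : ℝ) ^ (k + e * e) * x - (1 / 2 : ℝ) ^ (k' + e * e) * y| ≤ η := by
        intro k k' x y hx hy
        have h3 : |(1 / 2 : ℝ) ^ (k + e * e) * x| ≤ (1 / 2 : ℝ) ^ (e * e) * C := by
          rw [abs_mul, abs_of_pos (hp0 _)]
          exact mul_le_mul (hp k) hx (abs_nonneg _) (hp0 _).le
        have h4 : |(1 / 2 : ℝ) ^ (k' + e * e) * y| ≤ (1 / 2 : ℝ) ^ (e * e) * C := by
          rw [abs_mul, abs_of_pos (hp0 _)]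
          exact mul_le_mul (hp k') hy (abs_nonneg _) (hp0 _).le
        have h5 := abs_sub ((1 / 2 : ℝ) ^ (k + e * e) * x) ((1 / 2 : ℝ) ^ (k' + e * e) * y)
        have h6 := hp0 (e * e)
        nlinarith
      have hsC : ∀ (q : ℚ) (ϑ : ℝ), |F.P m q| + F.c m ≤ C → |ϑ| ≤ 1 →
          |F.P m q + F.c m * ϑ| ≤ C := by
        intro q ϑ hq hϑ
        refine (abs_add_le _ _).trans (le_trans ?_ hq)
        rw [abs_mul, abs_of_pos (F.hc m)]
        have := F.hc m
        nlinarith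
      have hidx : ∀ k : ℕ, Nat.sqrt (k + e * e) = e → Fam.idx (k + e * e) = m := by
        intro k hk
        unfold Fam.idx
        rw [hk, hm]
      apply Pt.dist_le_of
      · simp only [Function.comp, Pt.shift_iterate, phi]
        have h3 := hp (n i)
        have h4 := hp (n' j)
        have h5 := hp0 (n i + e * e)
        have h6 := hp0 (n' j + e * e)
        have h7 := hp0 (e * e)
        rw [abs_le]
        constructor <;> nlinarith
      · simp only [Function.comp, Pt.shift_iterate, phi]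
        exact hbound _ _ _ _ (hCa i).1 (hCb j).1
      · simp only [Function.comp, Pt.shift_iterate, phi]
        exact hbound _ _ _ _ (hsC _ _ (hCa i).2 hθ1) (hsC _ _ (hCb j).2 habs)
      · simp only [Function.comp, Pt.shift_iterate, phi]
        rw [hsa, hsb, hidx _ hsa, hidx _ hsb, tau_phi, tau_phi]
        have : (e : ℝ) ^ 2 * θ + e * (a i : ℝ) - ((e : ℝ) ^ 2 * (θ + σ) + e * (b j : ℝ)) = 0 := by
          have : (e : ℝ) ^ 2 * (θ + σ) = (e : ℝ) ^ 2 * θ + e * (e * σ) := by ring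
          rw [this, hσe]
          ring
        rw [this, abs_zero]
        exact hη.le
      · simp only [Function.comp, Pt.shift_iterate, phi]
        rw [hsa, hsb, hidx _ hsa, hidx _ hsb, rho_phi F m _ (ha i) hθ1,
          rho_phi F m _ (hb j) habs]
        simp [hη.le]
    · rw [hat_apply, hat_apply]
      simp only [hj, one_mul]
      have h2 := h0 i
      have h3 := h1 i
      have h4 : t i * (1 - |θ|) ≤ 1 - |θ| := by nlinarith
      linarith

theorem prox (F : Fam) (m : ℕ) {r r' : ℕ} (a : Fin r → ℚ) (n : Fin r → ℕ) (b : Fin r' → ℚ)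
    (n' : Fin r' → ℕ) (ha : ∀ j, a j ∈ F.Q m) (hb : ∀ j, b j ∈ F.Q m)
    (t : Fin r → ℝ) (h0 : ∀ j, 0 ≤ t j) (h1 : ∀ j, t j ≤ 1) (hn : ∃ j, t j = 1)
    (t' : Fin r' → ℝ) (h0' : ∀ j, 0 ≤ t' j) (h1' : ∀ j, t' j ≤ 1) (hn' : ∃ j, t' j = 1) :
    ProximalPair (FuzzySet.map (Pt.shift (F := F)) Pt.shift_cont)
      (FuzzySet.map (phi F m a n) (phi_cont F m a n) (hat t h0 h1 hn))
      (FuzzySet.map (phi F m b n') (phi_cont F m b n') (hat t' h0' h1' hn')) := by
  apply proximalPair_of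
  intro η hη N
  -- bounds
  obtain ⟨C1, hC1⟩ := (Set.finite_range (fun j => |(a j : ℝ)|)).bddAbove
  obtain ⟨C2, hC2⟩ := (Set.finite_range (fun j => |F.P m (a j)| + F.c m)).bddAbove
  obtain ⟨C3, hC3⟩ := (Set.finite_range (fun j => |(b j : ℝ)|)).bddAbove
  obtain ⟨C4, hC4⟩ := (Set.finite_range (fun j => |F.P m (b j)| + F.c m)).bddAbove
  obtain ⟨N1, hN1⟩ := (Set.finite_range n).bddAbove
  obtain ⟨N2, hN2⟩ := (Set.finite_range n').bddAbove
  set C : ℝ := max (max C1 C2) (max C3 C4) with hC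
  have hCa : ∀ j, |(a j : ℝ)| ≤ C ∧ |F.P m (a j)| + F.c m ≤ C := fun j =>
    ⟨(hC1 ⟨j, rfl⟩).trans ((le_max_left _ _).trans (le_max_left _ _)),
      (hC2 ⟨j, rfl⟩).trans ((le_max_right _ _).trans (le_max_left _ _))⟩
  have hCb : ∀ j, |(b j : ℝ)| ≤ C ∧ |F.P m (b j)| + F.c m ≤ C := fun j =>
    ⟨(hC3 ⟨j, rfl⟩).trans ((le_max_left _ _).trans (le_max_right _ _)),
      (hC4 ⟨j, rfl⟩).trans ((le_max_right _ _).trans (le_max_right _ _))⟩
  have hC0 : 0 ≤ C := by
    obtain ⟨j, _⟩ := hn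
    exact (abs_nonneg _).trans (hCa j).1
  -- choose k
  obtain ⟨k1, hk1⟩ := exists_nat_ge (2 * C / η)
  have hlim : Tendsto (fun k : ℕ => (1 / 2 : ℝ) ^ k * (2 * C + 1)) atTop (𝓝 (0 * (2 * C + 1))) :=
    (tendsto_pow_atTop_nhds_zero_of_lt_one (by norm_num) (by norm_num)).mul_const _
  rw [zero_mul] at hlim
  obtain ⟨k2, hk2⟩ := (eventually_atTop.1 (hlim.eventually (gt_mem_nhds hη)))
  set k := max (max (max k1 k2) (max N1 N2)) (max N 1) with hk
  set e := Nat.pair m k with he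
  have hek : k ≤ e := Nat.right_le_pair m k
  have hk1e : k1 ≤ e :=
    (((le_max_left _ _).trans (le_max_left _ _)).trans (le_max_left _ _)).trans hek
  have hk2e : k2 ≤ e :=
    (((le_max_right _ _).trans (le_max_left _ _)).trans (le_max_left _ _)).trans hek
  have hN1e : N1 ≤ e :=
    (((le_max_left _ _).trans (le_max_right _ _)).trans (le_max_left _ _)).trans hek
  have hN2e : N2 ≤ e :=
    (((le_max_right _ _).trans (le_max_right _ _)).trans (le_max_left _ _)).trans hek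
  have hNe : N ≤ e := ((le_max_left _ _).trans (le_max_right _ _)).trans hek
  have h1e : 1 ≤ e := ((le_max_right _ _).trans (le_max_right _ _)).trans hek
  have hee : e ≤ e * e := Nat.le_mul_of_pos_left e h1e
  have he0 : (0 : ℝ) < e := by exact_mod_cast h1e
  have he1 : 2 * C / e ≤ η := by
    rw [div_le_iff₀ he0]
    have h2 : 2 * C / η ≤ e := hk1.trans (by exact_mod_cast hk1e)
    rw [div_le_iff₀ hη] at h2
    linarith
  have he2 : (1 / 2 : ℝ) ^ (e * e) * (2 * C + 1) ≤ η := (hk2 _ (hk2e.trans hee)).le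
  have hm : (Nat.unpair e).1 = m := by rw [he, Nat.unpair_pair]
  refine ⟨e * e, hNe.trans hee, ?_⟩
  rw [FuzzySet.map_iterate, FuzzySet.map_iterate]
  apply FuzzySet.dist_map_le _ _ _ _ _ _ hη
  · exact align F m a n b n' ha hb t h0 h1 hn t' h0' h1' hn' C η e h1e hη hCa hCb
      (fun j => (hN1 ⟨j, rfl⟩).trans hN1e) (fun j => (hN2 ⟨j, rfl⟩).trans hN2e) hm he1 he2
  · exact align F m b n' a n hb ha t' h0' h1' hn' t h0 h1 hn C η e h1e hη hCb hCa
      (fun j => (hN2 ⟨j, rfl⟩).trans hN2e) (fun j => (hN1 ⟨j, rfl⟩).trans hN1e) hm he1 he2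

/-- Any finite family of points of the space can be approximated by the arcs of one stage. -/
theorem arcs_near (F : Fam) {r : ℕ} (x : Fin r → Pt F) {ε : ℝ} (hε : 0 < ε) :
    ∃ (m : ℕ) (a : Fin r → ℚ), (∀ j, a j ∈ F.Q m) ∧
      ∀ z : Z r, dist (phi F m a (fun j => (x j).n) z) (x z.1) < ε := by
  have h := fun j => Pt.near (x j) hε
  choose δ hδ H using h
  have hmin : ∃ δ0 > 0, ∀ j, δ0 ≤ δ j := by
    rcases isEmpty_or_nonempty (Fin r) with he | hne
    · exact ⟨1, one_pos, fun j => (he.false j).elim⟩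
    · obtain ⟨j0, hj0⟩ := Finite.exists_min δ
      exact ⟨δ j0, hδ j0, hj0⟩
  obtain ⟨δ0, hδ0, hδj⟩ := hmin
  obtain ⟨m, hcm, a, -, haQ, ha⟩ := F.dense r (fun j => (x j).q) (fun j => (x j).s) (δ0 / 2)
    (by linarith)
  refine ⟨m, a, haQ, ?_⟩
  rintro ⟨j, θ, hθ⟩
  have hθ1 : |θ| ≤ 1 := abs_le.2 ⟨hθ.1, hθ.2⟩
  have hs : |F.P m (a j) + F.c m * θ - (x j).s| < δ j := by
    have h1 := (ha j).2
    have h2 : |F.c m * θ| ≤ F.c m := by
      rw [abs_mul, abs_of_pos (F.hc m)]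
      have := F.hc m
      nlinarith
    have h3 := hδj j
    rw [abs_lt] at h1 ⊢
    rw [abs_le] at h2
    constructor <;> linarith [h1.1, h1.2, h2.1, h2.2]
  exact H j (a j) _ ((ha j).1.trans (by linarith [hδj j])) hs

theorem dense_F (F : Fam) :
    HasDenseProximalRelation (FuzzySet.map (Pt.shift (F := F)) Pt.shift_cont) := by
  unfold HasDenseProximalRelation
  rw [Metric.dense_iff]
  rintro ⟨u, v⟩ ε hε
  have hε' : 0 < ε / 4 := by linarith
  obtain ⟨r, x, t, ht, htn, hnet⟩ := exists_net u hε'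
  obtain ⟨r', x', t', ht', htn', hnet'⟩ := exists_net v hε'
  obtain ⟨m, c, hcQ, hc⟩ := arcs_near F (Fin.append x x') hε'
  set a : Fin r → ℚ := fun j => c (Fin.castAdd r' j) with ha
  set b : Fin r' → ℚ := fun j => c (Fin.natAdd r j) with hb
  have hφu : ∀ z : Z r, dist (phi F m a (fun j => (x j).n) z) (x z.1) < ε / 4 := by
    intro z
    have := hc (Fin.castAdd r' z.1, z.2)
    simp only [Fin.append_left] at this
    convert this using 2
    simp [phi, ha, Fin.append_left]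
  have hφv : ∀ z : Z r', dist (phi F m b (fun j => (x' j).n) z) (x' z.1) < ε / 4 := by
    intro z
    have := hc (Fin.natAdd r z.1, z.2)
    simp only [Fin.append_right] at this
    convert this using 2
    simp [phi, hb, Fin.append_right]
  refine ⟨(FuzzySet.map (phi F m a (fun j => (x j).n)) (phi_cont F m a _)
      (hat t (fun j => (ht j).1) (fun j => (ht j).2.trans (u.le_one _)) htn),
    FuzzySet.map (phi F m b (fun j => (x' j).n)) (phi_cont F m b _)
      (hat t' (fun j => (ht' j).1) (fun j => (ht' j).2.trans (v.le_one _)) htn')), ?_, ?_⟩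
  · rw [mem_ball, Prod.dist_eq]
    apply max_lt
    · refine lt_of_le_of_lt (approx u hε' x t ht htn hnet _ (phi_cont F m a _) hφu) ?_
      linarith
    · refine lt_of_le_of_lt (approx v hε' x' t' ht' htn' hnet' _ (phi_cont F m b _) hφv) ?_
      linarith
  · exact prox F m a _ b _ (fun j => hcQ _) (fun j => hcQ _) t _ _ htn t' _ _ htn'

end Pool.Agent.Helper80.Fz
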