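import Pool.Agent.Helper80.Fz.Space

open Filter Topology Metric TopologicalSpace

namespace Pool.Agent.Helper80.Fz

theorem exists_fresh (r : ℕ) (a : Fin r → ℚ) {δ : ℝ} (hδ : 0 < δ) (S : Finset ℚ) :
    ∃ a' : Fin r → ℚ, Function.Injective a' ∧ (∀ j, a' j ∉ S) ∧
      ∀ j, |(a' j : ℝ) - a j| < δ := by
  induction r generalizing S with
  | zero => exact ⟨a, fun i => i.elim0, fun i => i.elim0, fun i => i.elim0⟩
  | succ r ih =>
    obtain ⟨δ', h0, h1⟩ := exists_rat_btwn hδ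
    have h0' : (0 : ℚ) < δ' := by exact_mod_cast h0
    have hinf : (Set.Ioo (a 0 - δ') (a 0 + δ')).Infinite :=
      Set.Ioo_infinite (by linarith)
    obtain ⟨x, hx, hxS⟩ := hinf.exists_notMem_finset S
    obtain ⟨a', ha1, ha2, ha3⟩ := ih (fun j => a j.succ) (insert x S)
    refine ⟨Fin.cons x a', ?_, ?_, ?_⟩
    · rw [Fin.cons_injective_iff]
      refine ⟨?_, ha1⟩
      rintro ⟨j, hj⟩
      exact ha2 j (by rw [hj]; exact Finset.mem_insert_self _ _)
    · intro j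
      refine Fin.cases ?_ (fun i => ?_) j
      · simpa using hxS
      · simpa using fun h => ha2 i (Finset.mem_insert_of_mem h)
    · intro j
      refine Fin.cases ?_ (fun i => ?_) j
      · simp only [Fin.cons_zero]
        have hx1 : ((a 0 : ℚ) : ℝ) - δ' < x := by exact_mod_cast hx.1
        have hx2 : (x : ℝ) < (a 0 : ℚ) + δ' := by exact_mod_cast hx.2
        rw [abs_lt]
        constructor <;> linarith
      · simpa using ha3 i

/-- Index type: finite lists of rational points of the plane, and a scale. -/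
abbrev Ind : Type := (Σ r : ℕ, (Fin r → ℚ × ℚ)) × ℕ

theorem exists_stage (S : Finset ℚ) (i : Ind) :
    ∃ (P : ℝ → ℝ) (c : ℝ) (g : ℝ → ℝ) (Q : Finset ℚ), Continuous P ∧ 0 < c ∧ Continuous g ∧
      (∀ q ∈ Q, g q = 0) ∧ (∀ q : ℚ, q ∉ Q → 0 < g q) ∧ (∀ q ∈ S, 1 ≤ g q) ∧
      c = 1 / ((i.2 : ℝ) + 1) ∧ ∃ a' : Fin i.1.1 → ℚ, Function.Injective a' ∧
        (∀ j, a' j ∈ Q) ∧ ∀ j, |(a' j : ℝ) - (i.1.2 j).1| < 1 / ((i.2 : ℝ) + 1) ∧
          P (a' j) = (i.1.2 j).2 := by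
  have hk : (0 : ℝ) < 1 / ((i.2 : ℝ) + 1) := by positivity
  obtain ⟨a', ha1, ha2, ha3⟩ := exists_fresh i.1.1 (fun j => (i.1.2 j).1) hk S
  set Q : Finset ℚ := Finset.univ.image a' with hQ
  set h : ℝ → ℝ := fun x => ∏ q ∈ Q, |x - q| with hh
  have hcont : Continuous h := by
    apply continuous_finsetProd
    intro q _
    exact (continuous_id.sub continuous_const).abs
  have hpos : ∀ q : ℚ, q ∉ Q → 0 < h q := by
    intro q hq
    apply Finset.prod_pos
    intro q' hq'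
    rw [abs_pos, sub_ne_zero]
    intro hcast
    have : q = q' := by exact_mod_cast hcast
    exact hq (this ▸ hq')
  have hzero : ∀ q ∈ Q, h q = 0 := by
    intro q hq
    apply Finset.prod_eq_zero hq
    simp
  have hSQ : ∀ q ∈ S, q ∉ Q := by
    intro q hq hq'
    rw [hQ, Finset.mem_image] at hq'
    obtain ⟨j, _, rfl⟩ := hq'
    exact ha2 j hq
  set C : ℝ := 1 + ∑ q ∈ S, (h q)⁻¹ with hC
  have hCpos : 0 < C := by
    have : 0 ≤ ∑ q ∈ S, (h (q : ℝ))⁻¹ :=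
      Finset.sum_nonneg (fun q hq => (inv_pos.2 (hpos q (hSQ q hq))).le)
    linarith
  refine ⟨fun x => (Lagrange.interpolate Finset.univ (fun j => ((a' j : ℚ) : ℝ))
      (fun j => (((i.1.2 j).2 : ℚ) : ℝ))).eval x, 1 / ((i.2 : ℝ) + 1), fun x => C * h x, Q,
      Polynomial.continuous _, hk, continuous_const.mul hcont, ?_, ?_, ?_, rfl, a', ha1, ?_, ?_⟩
  · intro q hq
    simp only [hzero q hq, mul_zero]
  · intro q hq
    exact mul_pos hCpos (hpos q hq)
  · intro q hq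
    have hp := hpos q (hSQ q hq)
    have h1 : (h (q : ℝ))⁻¹ ≤ ∑ q ∈ S, (h (q : ℝ))⁻¹ :=
      Finset.single_le_sum (f := fun q : ℚ => (h (q : ℝ))⁻¹)
        (fun q hq => (inv_pos.2 (hpos q (hSQ q hq))).le) hq
    have h2 : (h (q : ℝ))⁻¹ ≤ C := by linarith
    calc (1 : ℝ) = (h (q : ℝ))⁻¹ * h q := by field_simp
      _ ≤ C * h q := mul_le_mul_of_nonneg_right h2 hp.le
  · intro j
    exact Finset.mem_image_of_mem _ (Finset.mem_univ j)
  · intro j
    refine ⟨ha3 j, ?_⟩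
    apply Lagrange.eval_interpolate_at_node (v := fun j => ((a' j : ℚ) : ℝ))
    · intro x _ y _ hxy
      have h : ((a' x : ℚ) : ℝ) = ((a' y : ℚ) : ℝ) := hxy
      exact ha1 (by exact_mod_cast h)
    · exact Finset.mem_univ j

theorem exists_fam : Nonempty Fam := by
  have hfin : ∀ m : ℕ, {q : ℚ | Encodable.encode q < m}.Finite := fun m =>
    (Set.finite_lt_nat m).preimage Encodable.encode_injective.injOn
  have key : ∀ m : ℕ, ∃ (P : ℝ → ℝ) (c : ℝ) (g : ℝ → ℝ) (Q : Finset ℚ), Continuous P ∧ 0 < c ∧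
      Continuous g ∧
      (∀ q ∈ Q, g q = 0) ∧ (∀ q : ℚ, q ∉ Q → 0 < g q) ∧
      (∀ q : ℚ, Encodable.encode q < m → 1 ≤ g q) ∧
      (∀ i : Ind, Encodable.decode m = some i → c = 1 / ((i.2 : ℝ) + 1) ∧
        ∃ a' : Fin i.1.1 → ℚ, Function.Injective a' ∧
        (∀ j, a' j ∈ Q) ∧ ∀ j, |(a' j : ℝ) - (i.1.2 j).1| < 1 / ((i.2 : ℝ) + 1) ∧
          P (a' j) = (i.1.2 j).2) := by
    intro m
    rcases hd : (Encodable.decode m : Option Ind) with _ | i
    · obtain ⟨P, c, g, Q, h1, h2, h3, h4, h5, h6, -⟩ :=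
        exists_stage (hfin m).toFinset (⟨0, fun j => j.elim0⟩, 0)
      refine ⟨P, c, g, Q, h1, h2, h3, h4, h5, fun q hq => h6 q (by simpa using hq), ?_⟩
      intro i hi
      exact absurd hi (by simp)
    · obtain ⟨P, c, g, Q, h1, h2, h3, h4, h5, h6, h7, h8⟩ :=
        exists_stage (hfin m).toFinset i
      refine ⟨P, c, g, Q, h1, h2, h3, h4, h5, fun q hq => h6 q (by simpa using hq), ?_⟩
      intro i' hi'
      rw [Option.some.injEq] at hi'
      subst hi'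
      exact ⟨h7, h8⟩
  choose P c g Q h1 h2 h3 h4 h5 h6 h7 using key
  refine ⟨⟨P, h1, c, h2, g, h3, Q, h4, h5, h6, ?_⟩⟩
  intro r a b δ hδ
  obtain ⟨k, hk⟩ := exists_nat_one_div_lt hδ
  have hb : ∀ j, ∃ b' : ℚ, |(b' : ℝ) - b j| < δ := by
    intro j
    obtain ⟨b', hb1, hb2⟩ := exists_rat_btwn (show b j - δ < b j + δ by linarith)
    exact ⟨b', abs_lt.2 ⟨by linarith, by linarith⟩⟩
  choose b' hb' using hb
  let i : Ind := (⟨r, fun j => (a j, b' j)⟩, k)
  obtain ⟨hc, a', ha1, ha2, ha3⟩ := h7 (Encodable.encode i) i (Encodable.encodek i)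
  refine ⟨Encodable.encode i, by rw [hc]; exact hk, a', ha1, ha2, fun j => ?_⟩
  obtain ⟨h8, h9⟩ := ha3 j
  refine ⟨h8.trans hk, ?_⟩
  rw [h9]
  exact hb' j

end Pool.Agent.Helper80.Fz
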