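import Pool.Agent.Helper80.Fz.Basic

open Filter Topology Metric TopologicalSpace

namespace Pool.Agent.Helper80.Fz

/-- The data used to define the metrics. -/
structure Fam where
  P : ℕ → ℝ → ℝ
  hP : ∀ m, Continuous (P m)
  c : ℕ → ℝ
  hc : ∀ m, 0 < c m
  g : ℕ → ℝ → ℝ
  hg : ∀ m, Continuous (g m)
  Q : ℕ → Finset ℚ
  gQ : ∀ m, ∀ q ∈ Q m, g m q = 0
  g_pos : ∀ m, ∀ q : ℚ, q ∉ Q m → 0 < g m q
  g_fresh : ∀ m, ∀ q : ℚ, Encodable.encode q < m → 1 ≤ g m q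
  dense : ∀ (r : ℕ) (a : Fin r → ℚ) (b : Fin r → ℝ) (δ : ℝ), 0 < δ →
    ∃ m, c m < δ ∧ ∃ a' : Fin r → ℚ, Function.Injective a' ∧ (∀ j, a' j ∈ Q m) ∧
      ∀ j, |(a' j : ℝ) - a j| < δ ∧ |P m (a' j) - b j| < δ

namespace Fam
variable (F : Fam)

noncomputable def tau (m : ℕ) (q s : ℝ) : ℝ := (s - F.P m q) / F.c m
noncomputable def rho (m : ℕ) (q s : ℝ) : ℝ := F.g m q + max 0 (|F.tau m q s| - 1)

theorem tau_cont (m : ℕ) : Continuous (fun p : ℝ × ℝ => F.tau m p.1 p.2) := by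
  unfold tau
  exact (continuous_snd.sub ((F.hP m).comp continuous_fst)).div_const _

theorem rho_cont (m : ℕ) : Continuous (fun p : ℝ × ℝ => F.rho m p.1 p.2) := by
  unfold rho
  exact ((F.hg m).comp continuous_fst).add
    (continuous_const.max ((F.tau_cont m).abs.sub continuous_const))

/-- index used in the time window `e = Nat.sqrt n`. -/
def idx (n : ℕ) : ℕ := (Nat.unpair (Nat.sqrt n)).1

noncomputable def PsiR (n : ℕ) (p : ℝ × ℝ) : ℝ × ℝ × ℝ × ℝ × ℝ :=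
  ((1 / 2 : ℝ) ^ n, (1 / 2 : ℝ) ^ n * p.1, (1 / 2 : ℝ) ^ n * p.2,
    (Nat.sqrt n : ℝ) ^ 2 * F.tau (idx n) p.1 p.2 + (Nat.sqrt n : ℝ) * p.1,
    (Nat.sqrt n : ℝ) ^ 2 * F.rho (idx n) p.1 p.2 * p.2)

theorem PsiR_cont (n : ℕ) : Continuous (F.PsiR n) := by
  unfold PsiR
  refine continuous_const.prodMk ((continuous_const.mul continuous_fst).prodMk
    ((continuous_const.mul continuous_snd).prodMk (Continuous.prodMk ?_ ?_)))
  · exact (continuous_const.mul (F.tau_cont _)).add (continuous_const.mul continuous_fst)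
  · exact (continuous_const.mul (F.rho_cont _)).mul continuous_snd

end Fam

/-- The points of the space: `(q, s, n) ∈ ℚ × ℝ × ℕ`. -/
@[ext]
structure Pt (F : Fam) where
  q : ℚ
  s : ℝ
  n : ℕ

namespace Pt
variable {F : Fam}

noncomputable def Psi (x : Pt F) : ℝ × ℝ × ℝ × ℝ × ℝ := F.PsiR x.n (x.q, x.s)

theorem Psi_injective : Function.Injective (Psi (F := F)) := by
  rintro ⟨q, s, n⟩ ⟨q', s', n'⟩ h
  simp only [Psi, Fam.PsiR, Prod.mk.injEq] at h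
  obtain ⟨h1, h2, h3, -⟩ := h
  have hn : n = n' := by
    have : StrictAnti (fun n : ℕ => (1 / 2 : ℝ) ^ n) :=
      pow_right_strictAnti₀ (by norm_num) (by norm_num)
    exact this.injective h1
  subst hn
  have hp : (1 / 2 : ℝ) ^ n ≠ 0 := by positivity
  have h2' := mul_left_cancel₀ hp h2
  have h3' := mul_left_cancel₀ hp h3
  have : q = q' := by exact_mod_cast h2'
  subst this
  subst h3'
  rfl

noncomputable instance : MetricSpace (Pt F) :=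
  MetricSpace.induced Psi Psi_injective inferInstance

theorem dist_eq (x y : Pt F) : dist x y = dist (Psi x) (Psi y) := rfl

/-- The map `f(q,s,n) = (q,s,n+1)`. -/
def shift (x : Pt F) : Pt F := ⟨x.q, x.s, x.n + 1⟩

theorem d1 (x y : Pt F) : |(1 / 2 : ℝ) ^ x.n - (1 / 2 : ℝ) ^ y.n| ≤ dist x y := by
  rw [dist_eq, Prod.dist_eq]
  exact le_max_left _ _

theorem d2 (x y : Pt F) : |(1 / 2 : ℝ) ^ x.n * x.q - (1 / 2 : ℝ) ^ y.n * y.q| ≤ dist x y := by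
  rw [dist_eq, Prod.dist_eq, Prod.dist_eq]
  exact (le_max_left _ _).trans (le_max_right _ _)

theorem d3 (x y : Pt F) : |(1 / 2 : ℝ) ^ x.n * x.s - (1 / 2 : ℝ) ^ y.n * y.s| ≤ dist x y := by
  rw [dist_eq, Prod.dist_eq, Prod.dist_eq, Prod.dist_eq]
  exact ((le_max_left _ _).trans (le_max_right _ _)).trans (le_max_right _ _)

theorem d4 (x y : Pt F) :
    |((Nat.sqrt x.n : ℝ) ^ 2 * F.tau (Fam.idx x.n) x.q x.s + (Nat.sqrt x.n : ℝ) * x.q)
      - ((Nat.sqrt y.n : ℝ) ^ 2 * F.tau (Fam.idx y.n) y.q y.s + (Nat.sqrt y.n : ℝ) * y.q)|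
      ≤ dist x y := by
  rw [dist_eq, Prod.dist_eq, Prod.dist_eq, Prod.dist_eq, Prod.dist_eq]
  exact (((le_max_left _ _).trans (le_max_right _ _)).trans (le_max_right _ _)).trans
    (le_max_right _ _)

theorem d5 (x y : Pt F) :
    |((Nat.sqrt x.n : ℝ) ^ 2 * F.rho (Fam.idx x.n) x.q x.s * x.s)
      - ((Nat.sqrt y.n : ℝ) ^ 2 * F.rho (Fam.idx y.n) y.q y.s * y.s)|
      ≤ dist x y := by
  rw [dist_eq, Prod.dist_eq, Prod.dist_eq, Prod.dist_eq, Prod.dist_eq]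
  exact (((le_max_right _ _).trans (le_max_right _ _)).trans (le_max_right _ _)).trans
    (le_max_right _ _)

theorem dist_le_of {x y : Pt F} {η : ℝ}
    (h1 : |(1 / 2 : ℝ) ^ x.n - (1 / 2 : ℝ) ^ y.n| ≤ η)
    (h2 : |(1 / 2 : ℝ) ^ x.n * x.q - (1 / 2 : ℝ) ^ y.n * y.q| ≤ η)
    (h3 : |(1 / 2 : ℝ) ^ x.n * x.s - (1 / 2 : ℝ) ^ y.n * y.s| ≤ η)
    (h4 : |((Nat.sqrt x.n : ℝ) ^ 2 * F.tau (Fam.idx x.n) x.q x.s + (Nat.sqrt x.n : ℝ) * x.q)
      - ((Nat.sqrt y.n : ℝ) ^ 2 * F.tau (Fam.idx y.n) y.q y.s + (Nat.sqrt y.n : ℝ) * y.q)| ≤ η)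
    (h5 : |((Nat.sqrt x.n : ℝ) ^ 2 * F.rho (Fam.idx x.n) x.q x.s * x.s)
      - ((Nat.sqrt y.n : ℝ) ^ 2 * F.rho (Fam.idx y.n) y.q y.s * y.s)| ≤ η) :
    dist x y ≤ η := by
  rw [dist_eq, Prod.dist_eq, Prod.dist_eq, Prod.dist_eq, Prod.dist_eq]
  exact max_le h1 (max_le h2 (max_le h3 (max_le h4 h5)))

theorem near (x : Pt F) {ε : ℝ} (hε : 0 < ε) : ∃ δ > 0, ∀ (q : ℚ) (s : ℝ),
    |(q : ℝ) - x.q| < δ → |s - x.s| < δ → dist (⟨q, s, x.n⟩ : Pt F) x < ε := by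
  have h := (F.PsiR_cont x.n).continuousAt (x := ((x.q : ℝ), x.s))
  rw [Metric.continuousAt_iff] at h
  obtain ⟨δ, hδ, H⟩ := h ε hε
  refine ⟨δ, hδ, fun q s hq hs => ?_⟩
  rw [dist_eq]
  exact H (x := ((q : ℝ), s)) (max_lt hq hs)

theorem level {x y : Pt F} (h : dist y x < (1 / 2 : ℝ) ^ (x.n + 1)) : y.n = x.n := by
  have h1 := (d1 y x).trans_lt h
  rcases lt_trichotomy y.n x.n with hlt | heq | hgt
  · exfalso
    have : (1 / 2 : ℝ) ^ x.n ≤ (1 / 2 : ℝ) ^ (y.n + 1) :=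
      pow_le_pow_of_le_one (by norm_num) (by norm_num) hlt
    have hp : (0 : ℝ) < (1 / 2 : ℝ) ^ x.n := by positivity
    rw [pow_succ] at this h1
    have := (abs_lt.1 h1).2
    linarith
  · exact heq
  · exfalso
    have : (1 / 2 : ℝ) ^ y.n ≤ (1 / 2 : ℝ) ^ (x.n + 1) :=
      pow_le_pow_of_le_one (by norm_num) (by norm_num) hgt
    have hp : (0 : ℝ) < (1 / 2 : ℝ) ^ x.n := by positivity
    rw [pow_succ] at this h1
    have := (abs_lt.1 h1).1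
    linarith

theorem close (x : Pt F) {ε : ℝ} (hε : 0 < ε) : ∃ δ > 0, ∀ y : Pt F, dist y x < δ →
    y.n = x.n ∧ |(y.q : ℝ) - x.q| < ε ∧ |y.s - x.s| < ε := by
  have hp : (0 : ℝ) < (1 / 2 : ℝ) ^ x.n := by positivity
  refine ⟨min ((1 / 2 : ℝ) ^ (x.n + 1)) ((1 / 2 : ℝ) ^ x.n * ε), lt_min (by positivity)
    (by positivity), fun y hy => ?_⟩
  have hn := level (hy.trans_le (min_le_left _ _))
  have hy2 := hy.trans_le (min_le_right _ _)
  refine ⟨hn, ?_, ?_⟩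
  · have := (d2 y x).trans_lt hy2
    rw [hn, ← mul_sub, abs_mul, abs_of_pos hp] at this
    exact lt_of_mul_lt_mul_left this hp.le
  · have := (d3 y x).trans_lt hy2
    rw [hn, ← mul_sub, abs_mul, abs_of_pos hp] at this
    exact lt_of_mul_lt_mul_left this hp.le

theorem shift_cont : Continuous (shift (F := F)) := by
  rw [Metric.continuous_iff]
  intro x ε hε
  obtain ⟨δ', hδ', H⟩ := near (shift x) hε
  obtain ⟨δ, hδ, H2⟩ := close x hδ'
  refine ⟨δ, hδ, fun y hy => ?_⟩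
  obtain ⟨hn, hq, hs⟩ := H2 y hy
  have := H y.q y.s hq hs
  have h3 : (⟨y.q, y.s, (shift x).n⟩ : Pt F) = shift y := by
    simp only [shift, hn]
  rwa [h3] at this

theorem q_cont : Continuous (fun x : Pt F => (x.q : ℝ)) := by
  rw [Metric.continuous_iff]
  intro x ε hε
  obtain ⟨δ, hδ, H2⟩ := close x hε
  exact ⟨δ, hδ, fun y hy => (H2 y hy).2.1⟩

theorem s_cont : Continuous (fun x : Pt F => x.s) := by
  rw [Metric.continuous_iff]
  intro x ε hε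
  obtain ⟨δ, hδ, H2⟩ := close x hε
  exact ⟨δ, hδ, fun y hy => (H2 y hy).2.2⟩

theorem tau_cont (m : ℕ) : Continuous (fun x : Pt F => F.tau m x.q x.s) :=
  (F.tau_cont m).comp (q_cont.prodMk s_cont)

theorem shift_iterate (k : ℕ) (x : Pt F) : shift^[k] x = ⟨x.q, x.s, x.n + k⟩ := by
  induction k with
  | zero => rfl
  | succ k ih => rw [Function.iterate_succ_apply', ih]; rfl

/-- arcs are continuous. -/
theorem arc_cont (q : ℚ) (a c : ℝ) (n : ℕ) :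
    Continuous (fun θ : ℝ => (⟨q, a + c * θ, n⟩ : Pt F)) := by
  rw [continuous_induced_rng]
  have h : Continuous (fun θ : ℝ => ((q : ℝ), a + c * θ)) := by fun_prop
  exact (F.PsiR_cont n).comp h

end Pt

end Pool.Agent.Helper80.Fz
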